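import Mathlib

open MeasureTheory

set_option linter.unusedSectionVars false

/-! Gibbs averages and their derivatives (helper91). -/

namespace Pool.Agent.Helper91.TN

/-- The Gibbs average of `u` for the weight `exp (b * A)`. -/
noncomputable def gb {X : Type*} [MeasurableSpace X] (μ : Measure X) (A : X → ℝ) (u : X → ℂ)
    (b : ℝ) : ℂ :=
  (∫ x, u x * (Real.exp (b * A x) : ℂ) ∂μ) / ((∫ x, Real.exp (b * A x) ∂μ : ℝ) : ℂ)

section

variable {X : Type*} [TopologicalSpace X] [CompactSpace X] [SecondCountableTopology X]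
  [MeasurableSpace X] [BorelSpace X] (μ : Measure X) [IsProbabilityMeasure μ] {A : X → ℝ}
  {a : ℝ}


theorem cont_exp (hA : Continuous A) (b : ℝ) : Continuous fun x => (Real.exp (b * A x) : ℂ) := by
  fun_prop

theorem exp_le (ha : ∀ x, |A x| ≤ a) (b : ℝ) (x : X) : Real.exp (b * A x) ≤ Real.exp (|b| * a) := by
  refine Real.exp_le_exp.2 ?_
  calc b * A x ≤ |b * A x| := le_abs_self _
    _ = |b| * |A x| := abs_mul _ _
    _ ≤ |b| * a := mul_le_mul_of_nonneg_left (ha x) (abs_nonneg _)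

theorem int_num (hA : Continuous A) (ha : ∀ x, |A x| ≤ a) {u : X → ℂ} (hu : Continuous u) {C : ℝ}
    (hC : ∀ x, ‖u x‖ ≤ C) (b : ℝ) :
    Integrable (fun x => u x * (Real.exp (b * A x) : ℂ)) μ := by
  refine Integrable.of_bound (hu.mul (cont_exp hA b)).aestronglyMeasurable
    (C * Real.exp (|b| * a)) (Filter.Eventually.of_forall fun x => ?_)
  rw [norm_mul, Complex.norm_real, Real.norm_of_nonneg (Real.exp_pos _).le]
  exact mul_le_mul (hC x) (exp_le ha b x) (Real.exp_pos _).le ((norm_nonneg _).trans (hC x))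

theorem num_deriv (hA : Continuous A) (ha : ∀ x, |A x| ≤ a) {u : X → ℂ} (hu : Continuous u)
    {C : ℝ} (hC : ∀ x, ‖u x‖ ≤ C) (b : ℝ) :
    HasDerivAt (fun b : ℝ => ∫ x, u x * (Real.exp (b * A x) : ℂ) ∂μ)
      (∫ x, (u x * (A x : ℂ)) * (Real.exp (b * A x) : ℂ) ∂μ) b := by
  have huA : Continuous fun x => u x * (A x : ℂ) := hu.mul (Complex.continuous_ofReal.comp hA)
  refine (hasDerivAt_integral_of_dominated_loc_of_deriv_le (μ := μ)
    (F := fun b x => u x * (Real.exp (b * A x) : ℂ))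
    (F' := fun b x => (u x * (A x : ℂ)) * (Real.exp (b * A x) : ℂ))
    (bound := fun _ => C * a * Real.exp ((|b| + 1) * a)) (x₀ := b)
    (s := Metric.ball b 1) (Metric.ball_mem_nhds b one_pos) ?_ ?_ ?_ ?_ ?_ ?_).2
  · exact Filter.Eventually.of_forall fun b' => (hu.mul (cont_exp hA b')).aestronglyMeasurable
  · exact int_num μ hA ha hu hC b
  · exact (huA.mul (cont_exp hA b)).aestronglyMeasurable
  · refine Filter.Eventually.of_forall fun x b' hb' => ?_
    have hC0 : 0 ≤ C := (norm_nonneg _).trans (hC x)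
    have ha0 : 0 ≤ a := (abs_nonneg _).trans (ha x)
    have hb1 : |b'| ≤ |b| + 1 := by
      have h1 : |b' - b| < 1 := by rwa [Metric.mem_ball, Real.dist_eq] at hb'
      have h2 := abs_sub_abs_le_abs_sub b' b
      linarith
    rw [norm_mul, norm_mul, Complex.norm_real, Complex.norm_real, Real.norm_eq_abs,
      Real.norm_of_nonneg (Real.exp_pos _).le]
    refine mul_le_mul (mul_le_mul (hC x) (ha x) (abs_nonneg _) hC0) ?_ (Real.exp_pos _).le
      (by positivity)
    exact (exp_le ha b' x).trans (Real.exp_le_exp.2 (mul_le_mul_of_nonneg_right hb1 ha0))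
  · exact integrable_const _
  · refine Filter.Eventually.of_forall fun x b' _ => ?_
    have h1 : HasDerivAt (fun b : ℝ => Real.exp (b * A x)) (Real.exp (b' * A x) * A x) b' := by
      simpa using ((hasDerivAt_id b').mul_const (A x)).exp
    have h2 := h1.ofReal_comp.const_mul (u x)
    have e : u x * ((Real.exp (b' * A x) * A x : ℝ) : ℂ) =
        (u x * (A x : ℂ)) * (Real.exp (b' * A x) : ℂ) := by
      push_cast
      ring
    rw [← e]
    exact h2

theorem den_pos (hA : Continuous A) (ha : ∀ x, |A x| ≤ a) (b : ℝ) :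
    0 < ∫ x, Real.exp (b * A x) ∂μ := by
  refine integral_exp_pos ?_
  refine Integrable.of_bound (by fun_prop : Continuous fun x => Real.exp (b * A x)).aestronglyMeasurable
    (Real.exp (|b| * a)) (Filter.Eventually.of_forall fun x => ?_)
  rw [Real.norm_of_nonneg (Real.exp_pos _).le]
  exact exp_le ha b x

theorem den_eq (A : X → ℝ) (b : ℝ) : ((∫ x, Real.exp (b * A x) ∂μ : ℝ) : ℂ) =
    ∫ x, (fun _ => (1 : ℂ)) x * (Real.exp (b * A x) : ℂ) ∂μ := by
  rw [← integral_complex_ofReal]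
  simp only [one_mul]

theorem gb_norm (hA : Continuous A) (ha : ∀ x, |A x| ≤ a) {u : X → ℂ} {C : ℝ}
    (hC : ∀ x, ‖u x‖ ≤ C) (b : ℝ) : ‖gb μ A u b‖ ≤ C := by
  have hZ := den_pos μ hA ha b
  rw [gb, norm_div, Complex.norm_real, Real.norm_of_nonneg hZ.le, div_le_iff₀ hZ,
    ← integral_const_mul]
  refine norm_integral_le_of_norm_le ?_ (Filter.Eventually.of_forall fun x => ?_)
  · refine Integrable.const_mul ?_ _
    refine Integrable.of_bound
      (by fun_prop : Continuous fun x => Real.exp (b * A x)).aestronglyMeasurable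
      (Real.exp (|b| * a)) (Filter.Eventually.of_forall fun x => ?_)
    rw [Real.norm_of_nonneg (Real.exp_pos _).le]
    exact exp_le ha b x
  · rw [norm_mul, Complex.norm_real, Real.norm_of_nonneg (Real.exp_pos _).le]
    exact mul_le_mul_of_nonneg_right (hC x) (Real.exp_pos _).le

theorem gb_first (hA : Continuous A) (ha : ∀ x, |A x| ≤ a) {u : X → ℂ} (hu : Continuous u)
    {C : ℝ} (hC : ∀ x, ‖u x‖ ≤ C) (b : ℝ) :
    HasDerivAt (gb μ A u)
      (gb μ A (fun x => u x * (A x : ℂ)) b - gb μ A u b * gb μ A (fun x => (A x : ℂ)) b) b := by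
  have h1 := num_deriv μ hA ha hu hC b
  have h2 := num_deriv μ hA ha (continuous_const (y := (1 : ℂ))) (C := 1)
    (fun x => by simp) b
  have hZ : ((∫ x, Real.exp (b * A x) ∂μ : ℝ) : ℂ) ≠ 0 := by
    exact_mod_cast (den_pos μ hA ha b).ne'
  have h3 : HasDerivAt (fun b : ℝ => ((∫ x, Real.exp (b * A x) ∂μ : ℝ) : ℂ))
      (∫ x, (fun x => (A x : ℂ)) x * (Real.exp (b * A x) : ℂ) ∂μ) b := by
    have e : (fun b : ℝ => ((∫ x, Real.exp (b * A x) ∂μ : ℝ) : ℂ)) = fun b : ℝ =>
        ∫ x, (fun _ => (1 : ℂ)) x * (Real.exp (b * A x) : ℂ) ∂μ := funext fun b => den_eq μ A b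
    rw [e]
    simpa using h2
  have h4 := h1.div h3 hZ
  refine h4.congr_deriv ?_
  rw [gb, gb, gb]
  field_simp

/-- Two derivatives of a Gibbs average. -/
theorem gb_deriv (hA : Continuous A) (ha : ∀ x, |A x| ≤ a) {u : X → ℂ} (hu : Continuous u)
    {C : ℝ} (hC : ∀ x, ‖u x‖ ≤ C) :
    ∃ g' g'' : ℝ → ℂ, (∀ b, HasDerivAt (gb μ A u) (g' b) b) ∧ (∀ b, HasDerivAt g' (g'' b) b) ∧
      ∀ b, ‖g'' b‖ ≤ 6 * C * a ^ 2 := by
  obtain ⟨x₀⟩ : Nonempty X := nonempty_of_isProbabilityMeasure μ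
  have hC0 : 0 ≤ C := (norm_nonneg _).trans (hC x₀)
  have ha0 : 0 ≤ a := (abs_nonneg _).trans (ha x₀)
  have hAc : Continuous fun x => (A x : ℂ) := Complex.continuous_ofReal.comp hA
  have hAn : ∀ x, ‖(A x : ℂ)‖ ≤ a := fun x => by
    rw [Complex.norm_real, Real.norm_eq_abs]
    exact ha x
  have huA : Continuous fun x => u x * (A x : ℂ) := hu.mul hAc
  have huAn : ∀ x, ‖u x * (A x : ℂ)‖ ≤ C * a := fun x => by
    rw [norm_mul]
    exact mul_le_mul (hC x) (hAn x) (norm_nonneg _) hC0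
  have hAA : ∀ x, ‖(A x : ℂ) * (A x : ℂ)‖ ≤ a * a := fun x => by
    rw [norm_mul]
    exact mul_le_mul (hAn x) (hAn x) (norm_nonneg _) ha0
  have huAA : ∀ x, ‖(u x * (A x : ℂ)) * (A x : ℂ)‖ ≤ C * a * a := fun x => by
    rw [norm_mul]
    exact mul_le_mul (huAn x) (hAn x) (norm_nonneg _) (by positivity)
  refine ⟨fun b => gb μ A (fun x => u x * (A x : ℂ)) b -
      gb μ A u b * gb μ A (fun x => (A x : ℂ)) b,
    fun b => (gb μ A (fun x => (u x * (A x : ℂ)) * (A x : ℂ)) b -
        gb μ A (fun x => u x * (A x : ℂ)) b * gb μ A (fun x => (A x : ℂ)) b) -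
      ((gb μ A (fun x => u x * (A x : ℂ)) b - gb μ A u b * gb μ A (fun x => (A x : ℂ)) b) *
          gb μ A (fun x => (A x : ℂ)) b +
        gb μ A u b * (gb μ A (fun x => (A x : ℂ) * (A x : ℂ)) b -
          gb μ A (fun x => (A x : ℂ)) b * gb μ A (fun x => (A x : ℂ)) b)),
    fun b => gb_first μ hA ha hu hC b, fun b => ?_, fun b => ?_⟩
  · exact (gb_first μ hA ha huA huAn b).sub
      ((gb_first μ hA ha hu hC b).mul (gb_first μ hA ha hAc hAn b))
  · have n1 := gb_norm μ hA ha huAA b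
    have n2 := gb_norm μ hA ha huAn b
    have n3 := gb_norm μ hA ha hAn b
    have n4 := gb_norm μ hA ha hC b
    have n5 := gb_norm μ hA ha hAA b
    have m1 : ‖gb μ A (fun x => u x * (A x : ℂ)) b * gb μ A (fun x => (A x : ℂ)) b‖ ≤
        C * a * a := by
      rw [norm_mul]
      exact mul_le_mul n2 n3 (norm_nonneg _) (by positivity)
    have m2 : ‖gb μ A u b * gb μ A (fun x => (A x : ℂ)) b‖ ≤ C * a := by
      rw [norm_mul]
      exact mul_le_mul n4 n3 (norm_nonneg _) (by positivity)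
    have m3 : ‖(gb μ A (fun x => u x * (A x : ℂ)) b - gb μ A u b * gb μ A (fun x => (A x : ℂ)) b) *
          gb μ A (fun x => (A x : ℂ)) b‖ ≤ (C * a + C * a) * a := by
      rw [norm_mul]
      exact mul_le_mul ((norm_sub_le _ _).trans (add_le_add n2 m2)) n3 (norm_nonneg _)
        (by positivity)
    have m4 : ‖gb μ A (fun x => (A x : ℂ)) b * gb μ A (fun x => (A x : ℂ)) b‖ ≤ a * a := by
      rw [norm_mul]
      exact mul_le_mul n3 n3 (norm_nonneg _) ha0
    have m5 : ‖gb μ A u b * (gb μ A (fun x => (A x : ℂ) * (A x : ℂ)) b -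
          gb μ A (fun x => (A x : ℂ)) b * gb μ A (fun x => (A x : ℂ)) b)‖ ≤
        C * (a * a + a * a) := by
      rw [norm_mul]
      exact mul_le_mul n4 ((norm_sub_le _ _).trans (add_le_add n5 m4)) (norm_nonneg _) hC0
    refine (norm_sub_le _ _).trans ?_
    have m6 := (norm_sub_le (gb μ A (fun x => (u x * (A x : ℂ)) * (A x : ℂ)) b)
        (gb μ A (fun x => u x * (A x : ℂ)) b * gb μ A (fun x => (A x : ℂ)) b)).trans
        (add_le_add n1 m1)
    have m7 := (norm_add_le ((gb μ A (fun x => u x * (A x : ℂ)) b -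
        gb μ A u b * gb μ A (fun x => (A x : ℂ)) b) * gb μ A (fun x => (A x : ℂ)) b)
        (gb μ A u b * (gb μ A (fun x => (A x : ℂ) * (A x : ℂ)) b -
          gb μ A (fun x => (A x : ℂ)) b * gb μ A (fun x => (A x : ℂ)) b))).trans
        (add_le_add m3 m5)
    refine (add_le_add m6 m7).trans (le_of_eq ?_)
    ring

end

end Pool.Agent.Helper91.TN
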